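import Mathlib

/-!
# Symplectic line arrangements as factorisations of the full twist

A symplectic line arrangement of `d = m + 1` lines is given by its braid monodromy factorisation
`Δ² = ∏ g_j T_{k_j} g_j⁻¹` in Artin's braid group.
-/

set_option autoImplicit false

namespace Pool.Agent.Helper81.SL

/-- The relations of Artin's presentation. -/
def artinRels (m : ℕ) : Set (FreeGroup (Fin m)) :=
  {r | ∃ i j : Fin m,
    (i.val + 1 = j.val ∧
      r = FreeGroup.of i * FreeGroup.of j * FreeGroup.of i *
        (FreeGroup.of j * FreeGroup.of i * FreeGroup.of j)⁻¹) ∨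
    (i.val + 2 ≤ j.val ∧
      r = FreeGroup.of i * FreeGroup.of j * (FreeGroup.of j * FreeGroup.of i)⁻¹)}

/-- The braid group on `m + 1` strands. -/
abbrev BraidGroup (m : ℕ) : Type := PresentedGroup (artinRels m)

/-- The generator `σ_i`, the half twist of the adjacent strands `i` and `i + 1` (`i < m`). -/
def sg (m i : ℕ) : BraidGroup m := if h : i < m then PresentedGroup.of ⟨i, h⟩ else 1

/-- `run m a n = σ_a σ_{a+1} ⋯ σ_{a+n-1}`. -/
def run (m a : ℕ) : ℕ → BraidGroup m
  | 0 => 1
  | n + 1 => run m a n * sg m (a + n)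

/-- The full twist of the `k` adjacent strands `a, ..., a + k - 1`. -/
def twist (m a k : ℕ) : BraidGroup m := run m a (k - 1) ^ k

/-- A multiple point of an arrangement of `m + 1` lines: `k` lines, which are the adjacent strands
`a, ..., a + k - 1` after the braid `g`. -/
structure Pt (m : ℕ) where
  g : BraidGroup m
  a : ℕ
  k : ℕ

/-- A symplectic line arrangement of `m + 1` lines: the full twist `Δ²` is the product of the
conjugates `g T g⁻¹` of the full twists of the points. -/
def IsArr {m : ℕ} (l : List (Pt m)) : Prop :=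
  (∀ P ∈ l, 2 ≤ P.k ∧ P.a + P.k ≤ m + 1) ∧
    (l.map fun P => P.g * twist m P.a P.k * P.g⁻¹).prod = twist m 0 (m + 1)

/-- The number of points of multiplicity `k`. -/
def tk {m : ℕ} (l : List (Pt m)) (k : ℕ) : ℕ := l.countP fun P => P.k = k

/-- The number of incidences, the sum of the multiplicities of the points. -/
def inc {m : ℕ} (l : List (Pt m)) : ℕ := (l.map Pt.k).sum

/-- `c_2 / n ^ (d - 3)` for the Hirzebruch cover of an arrangement of `d = m + 1` lines. -/
def cTwo {m : ℕ} (l : List (Pt m)) (n : ℤ) : ℤ :=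
  n ^ 2 * (3 - 2 * (m + 1) + inc l - l.length) + 2 * n * (m + 1 - inc l + l.length) + inc l - tk l 2

/-- `c_1 ^ 2 / n ^ (d - 3)`. -/
def cOneSq {m : ℕ} (l : List (Pt m)) (n : ℤ) : ℤ :=
  n ^ 2 * (-5 * (m + 1) + 9 + 3 * inc l - 4 * l.length) + 4 * n * (m + 1 - inc l + l.length) +
    inc l - l.length + (m + 1) + tk l 2

end Pool.Agent.Helper81.SL
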