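import Pool.Agent.Helper81.SL.Defs
import Pool.Agent.Helper81.SBA.V.Cp

set_option autoImplicit false

namespace Pool.Agent.Helper81.SL

/-! ### Comparison with the library -/

open Pool.Agent.Helper81 in
lemma run_eq (m a : ℕ) : ∀ n, run m a n = SBA.run m a n
  | 0 => rfl
  | n + 1 => by
    have h : run m a (n + 1) = run m a n * sg m (a + n) := rfl
    rw [h, run_eq m a n]
    rfl

/-- The points of the library. -/
def toPt {m : ℕ} (P : Pt m) : Pool.Agent.Helper81.SBA.Pt m := ⟨P.g, P.a, P.k⟩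

open Pool.Agent.Helper81 in
lemma twist_eq (m a k : ℕ) : twist m a k = SBA.twist m a k := by
  have h : twist m a k = run m a (k - 1) ^ k := rfl
  rw [h, run_eq]
  rfl

open Pool.Agent.Helper81 in
lemma isArr_map {m : ℕ} {l : List (Pt m)} (h : IsArr l) : SBA.IsArr m (l.map toPt) := by
  refine ⟨?_, ?_⟩
  · intro P hP
    obtain ⟨Q, hQ, rfl⟩ := List.mem_map.1 hP
    exact h.1 Q hQ
  · rw [List.map_map]
    have h1 : l.map (SBA.Pt.braid ∘ toPt) = l.map fun P => P.g * twist m P.a P.k * P.g⁻¹ := by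
      refine List.map_congr_left fun P _ => ?_
      rw [twist_eq]
      rfl
    rw [h1]
    refine Eq.trans ?_ (h.2.trans (twist_eq m 0 (m + 1)))
    rfl

open Pool.Agent.Helper81 in
lemma tk_map {m : ℕ} (l : List (Pt m)) (k : ℕ) : SBA.tk (l.map toPt) k = tk l k := by
  unfold SBA.tk tk
  rw [List.countP_map]
  rfl

open Pool.Agent.Helper81 in
lemma sum_map {m : ℕ} (l : List (Pt m)) : ((l.map toPt).map fun P => P.k).sum = inc l := by
  rw [List.map_map]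
  rfl

theorem main :
    (∀ (m : ℕ) (l : List (Pt m)), 20000 ≤ m + 1 → IsArr l → (∀ P ∈ l, P.k ≤ 4) →
      m + 1 ≤ tk l 2 + tk l 3 ∧ ∀ n : ℤ, 2 ≤ n → cOneSq l n ≤ 3 * cTwo l n) ∧
    ∀ ε : ℝ, 0 < ε → ∃ N : ℕ, ∀ (m : ℕ) (l : List (Pt m)), N ≤ m + 1 → IsArr l →
      (∀ P ∈ l, P.k ≤ 4) →
        (Even (m + 1) → (3 / 2 - ε) * (m + 1) ≤ (tk l 2 : ℝ) + tk l 3) ∧
        (Odd (m + 1) → (7 / 6 - ε) * (m + 1) ≤ (tk l 2 : ℝ) + tk l 3) := by
  have h4' : ∀ {m : ℕ} {l : List (Pt m)}, (∀ P ∈ l, P.k ≤ 4) → ∀ P ∈ l.map toPt, P.k ≤ 4 := by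
    intro m l h P hP
    obtain ⟨Q, hQ, rfl⟩ := List.mem_map.1 hP
    exact h Q hQ
  refine ⟨fun m l hd hl h4 => ?_, fun ε hε => ?_⟩
  · obtain ⟨h1, h2⟩ := Pool.Agent.Helper81.SBA.main hd (isArr_map hl) (h4' h4)
    rw [tk_map, tk_map] at h1
    refine ⟨h1, fun n hn => ?_⟩
    have h3 := h2 n hn
    rw [tk_map, List.length_map, sum_map] at h3
    exact h3
  · obtain ⟨N, hN⟩ := Pool.Agent.Helper81.SBA.main_orb ε hε
    refine ⟨N + 1, fun m l hm hl h4 => ?_⟩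
    obtain ⟨h1, h2⟩ := hN m (by omega) (l.map toPt) (isArr_map hl) (h4' h4)
    refine ⟨fun he => ?_, fun ho => ?_⟩
    · have h3 := (h1 he).1
      rw [tk_map, tk_map] at h3
      exact h3
    · have h3 := (h2 ho).1
      rw [tk_map, tk_map] at h3
      exact h3

end Pool.Agent.Helper81.SL
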